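import Mathlib

set_option autoImplicit false

/-!
# The free Banach lattice over the Euclidean plane is not octahedral
-/

namespace Pool.Agent.Results.MP_8a6196_an.EuclideanPlane

open Finset

section defs

variable {E : Type*} [NormedAddCommGroup E] [NormedSpace ℝ E]

/-- Admissible finite families of functionals: `sup_{x ∈ B_E} ∑ |x_i*(x)| ≤ 1`. -/
def Adm {m : ℕ} (φ : Fin m → StrongDual ℝ E) : Prop := ∀ x : E, ‖x‖ ≤ 1 → ∑ i, |φ i x| ≤ 1

/-- The values `∑ |f(x_i*)|` over all admissible families. -/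
def vals (f : StrongDual ℝ E → ℝ) : Set ℝ :=
  {r | ∃ (m : ℕ) (φ : Fin m → StrongDual ℝ E), Adm φ ∧ r = ∑ i, |f (φ i)|}

/-- The free Banach lattice norm. -/
noncomputable def fnorm (f : StrongDual ℝ E → ℝ) : ℝ := sSup (vals f)

/-- The evaluation `δ_x`. -/
def delta (x : E) : StrongDual ℝ E → ℝ := fun φ => φ x

/-- The vector lattice of functions generated by the evaluations. -/
def Lat (E : Type*) [NormedAddCommGroup E] [NormedSpace ℝ E] :
    Submodule ℝ (StrongDual ℝ E → ℝ) :=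
  sInf {M | (∀ x, delta x ∈ M) ∧ ∀ f ∈ M, ∀ g ∈ M, f ⊔ g ∈ M}

/-- The free Banach lattice `FBL[E]`: positively homogeneous functions that are limits, for the
free Banach lattice norm, of elements of the lattice generated by the evaluations. -/
def FBL (E : Type*) [NormedAddCommGroup E] [NormedSpace ℝ E] : Set (StrongDual ℝ E → ℝ) :=
  {f | (∀ t : ℝ, 0 ≤ t → ∀ φ, f (t • φ) = t * f φ) ∧ ∀ ε : ℝ, 0 < ε → ∃ g ∈ Lat E,
    ∀ (m : ℕ) (φ : Fin m → StrongDual ℝ E), Adm φ → ∑ i, |f (φ i) - g (φ i)| ≤ ε}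

/-- The norm of `FBL[E]` is octahedral. -/
def OctahedralFBL (E : Type*) [NormedAddCommGroup E] [NormedSpace ℝ E] : Prop :=
  ∀ Y : Submodule ℝ (StrongDual ℝ E → ℝ), FiniteDimensional ℝ Y →
    (Y : Set (StrongDual ℝ E → ℝ)) ⊆ FBL E → ∀ ε : ℝ, 0 < ε →
      ∃ g ∈ FBL E, fnorm g = 1 ∧ ∀ z ∈ Y, ∀ l : ℝ,
        (1 - ε) * (fnorm z + |l|) ≤ fnorm (z + l • g)

theorem Adm.apply_le {m : ℕ} {φ : Fin m → StrongDual ℝ E} (h : Adm φ) (x : E) :
    ∑ i, |φ i x| ≤ ‖x‖ := by
  rcases eq_or_ne x 0 with rfl | hx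
  · simp
  · have hx' : 0 < ‖x‖ := norm_pos_iff.2 hx
    have h1 := h (‖x‖⁻¹ • x) (by
      rw [norm_smul, norm_inv, norm_norm, inv_mul_cancel₀ hx'.ne'])
    simp only [map_smul, smul_eq_mul, abs_mul, abs_inv, abs_norm] at h1
    rw [← Finset.mul_sum, inv_mul_le_one₀ hx'] at h1
    exact h1

theorem vals_nonempty (f : StrongDual ℝ E → ℝ) : (vals f).Nonempty :=
  ⟨0, 0, fun i => i.elim0, fun x _ => by simp, by simp⟩

theorem bdd_iff (f : StrongDual ℝ E → ℝ) : BddAbove (vals f) ↔ ∃ C, ∀ (m : ℕ)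
    (φ : Fin m → StrongDual ℝ E), Adm φ → ∑ i, |f (φ i)| ≤ C := by
  constructor
  · rintro ⟨C, hC⟩
    exact ⟨C, fun m φ hφ => hC ⟨m, φ, hφ, rfl⟩⟩
  · rintro ⟨C, hC⟩
    refine ⟨C, ?_⟩
    rintro _ ⟨m, φ, hφ, rfl⟩
    exact hC m φ hφ

theorem lat_bdd {f : StrongDual ℝ E → ℝ} (hf : f ∈ Lat E) : BddAbove (vals f) := by
  let M : Submodule ℝ (StrongDual ℝ E → ℝ) :=
    { carrier := {f | BddAbove (vals f)}
      add_mem' := by
        intro f g hf hg
        obtain ⟨C, hC⟩ := (bdd_iff f).1 hf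
        obtain ⟨D, hD⟩ := (bdd_iff g).1 hg
        refine (bdd_iff _).2 ⟨C + D, fun m φ hφ => ?_⟩
        refine (Finset.sum_le_sum fun i _ => abs_add_le (f (φ i)) (g (φ i))).trans ?_
        rw [Finset.sum_add_distrib]
        exact add_le_add (hC m φ hφ) (hD m φ hφ)
      zero_mem' := (bdd_iff _).2 ⟨0, fun m φ _ => by simp⟩
      smul_mem' := by
        intro c f hf
        obtain ⟨C, hC⟩ := (bdd_iff f).1 hf
        refine (bdd_iff _).2 ⟨|c| * C, fun m φ hφ => ?_⟩
        simp only [Pi.smul_apply, smul_eq_mul, abs_mul, ← Finset.mul_sum]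
        exact mul_le_mul_of_nonneg_left (hC m φ hφ) (abs_nonneg c) }
  have hM : M ∈ {M : Submodule ℝ (StrongDual ℝ E → ℝ) |
      (∀ x, delta x ∈ M) ∧ ∀ f ∈ M, ∀ g ∈ M, f ⊔ g ∈ M} := by
    refine ⟨fun x => (bdd_iff _).2 ⟨‖x‖, fun m φ hφ => hφ.apply_le x⟩, ?_⟩
    intro f hf g hg
    obtain ⟨C, hC⟩ := (bdd_iff f).1 hf
    obtain ⟨D, hD⟩ := (bdd_iff g).1 hg
    refine (bdd_iff _).2 ⟨C + D, fun m φ hφ => ?_⟩
    refine (Finset.sum_le_sum (g := fun i => |f (φ i)| + |g (φ i)|) fun i _ => ?_).trans ?_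
    · rw [Pi.sup_apply]
      refine (abs_max_le_max_abs_abs).trans ?_
      exact max_le (le_add_of_nonneg_right (abs_nonneg _)) (le_add_of_nonneg_left (abs_nonneg _))
    · rw [Finset.sum_add_distrib]
      exact add_le_add (hC m φ hφ) (hD m φ hφ)
  exact (sInf_le hM : Lat E ≤ M) hf

theorem fbl_bdd {f : StrongDual ℝ E → ℝ} (hf : f ∈ FBL E) : BddAbove (vals f) := by
  obtain ⟨g, hg, hfg⟩ := hf.2 1 one_pos
  obtain ⟨C, hC⟩ := (bdd_iff g).1 (lat_bdd hg)
  refine (bdd_iff _).2 ⟨1 + C, fun m φ hφ => ?_⟩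
  refine (Finset.sum_le_sum (g := fun i => |f (φ i) - g (φ i)| + |g (φ i)|) fun i _ => ?_).trans ?_
  · have := abs_add_le (f (φ i) - g (φ i)) (g (φ i))
    rwa [sub_add_cancel] at this
  · rw [Finset.sum_add_distrib]
    exact add_le_add (hfg m φ hφ) (hC m φ hφ)

theorem le_fnorm {f : StrongDual ℝ E → ℝ} (hf : BddAbove (vals f)) {m : ℕ}
    {φ : Fin m → StrongDual ℝ E} (hφ : Adm φ) : ∑ i, |f (φ i)| ≤ fnorm f :=
  le_csSup hf ⟨m, φ, hφ, rfl⟩

theorem delta_mem (x : E) : delta x ∈ Lat E :=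
  (Submodule.mem_sInf).2 fun _ hM => hM.1 x

theorem sup_mem {f g : StrongDual ℝ E → ℝ} (hf : f ∈ Lat E) (hg : g ∈ Lat E) : f ⊔ g ∈ Lat E :=
  (Submodule.mem_sInf).2 fun M hM =>
    hM.2 f ((Submodule.mem_sInf).1 hf M hM) g ((Submodule.mem_sInf).1 hg M hM)

theorem lat_hom {f : StrongDual ℝ E → ℝ} (hf : f ∈ Lat E) (t : ℝ) (ht : 0 ≤ t)
    (φ : StrongDual ℝ E) : f (t • φ) = t * f φ := by
  let M : Submodule ℝ (StrongDual ℝ E → ℝ) :=
    { carrier := {f | f (t • φ) = t * f φ}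
      add_mem' := by
        intro f g hf hg
        simp only [Set.mem_ofPred_eq, Pi.add_apply] at hf hg ⊢
        rw [hf, hg]; ring
      zero_mem' := by simp
      smul_mem' := by
        intro c f hf
        simp only [Set.mem_ofPred_eq, Pi.smul_apply, smul_eq_mul] at hf ⊢
        rw [hf]; ring }
  have hM : M ∈ {M : Submodule ℝ (StrongDual ℝ E → ℝ) |
      (∀ x, delta x ∈ M) ∧ ∀ f ∈ M, ∀ g ∈ M, f ⊔ g ∈ M} := by
    refine ⟨fun x => rfl, fun f hf g hg => ?_⟩
    change (f ⊔ g) (t • φ) = t * (f ⊔ g) φ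
    have hf' : f (t • φ) = t * f φ := hf
    have hg' : g (t • φ) = t * g φ := hg
    rw [Pi.sup_apply, Pi.sup_apply, hf', hg', mul_max_of_nonneg _ _ ht]
  exact (sInf_le hM : Lat E ≤ M) hf

theorem lat_sub_fbl : (Lat E : Set (StrongDual ℝ E → ℝ)) ⊆ FBL E := fun f hf =>
  ⟨lat_hom hf, fun ε hε => ⟨f, hf, fun m φ _ => by simpa using hε.le⟩⟩

/-- The test functions `(|δ_e| - 10 |δ_e'|)⁺`. -/
def test (e e' : E) : StrongDual ℝ E → ℝ :=
  ((delta e ⊔ -delta e) - (10 : ℝ) • (delta e' ⊔ -delta e')) ⊔ 0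

theorem test_mem (e e' : E) : test e e' ∈ Lat E :=
  sup_mem (Submodule.sub_mem _ (sup_mem (delta_mem e) (Submodule.neg_mem _ (delta_mem e)))
    (Submodule.smul_mem _ _ (sup_mem (delta_mem e') (Submodule.neg_mem _ (delta_mem e')))))
    (Submodule.zero_mem _)

theorem test_apply (e e' : E) (φ : StrongDual ℝ E) :
    test e e' φ = max (|φ e| - 10 * |φ e'|) 0 := rfl

end defs

section plane

/-- The Euclidean plane. -/
abbrev E2 : Type := EuclideanSpace ℝ (Fin 2)

variable {e e' : E2}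

/-- Orthonormality in the form used below. -/
def Orth (e e' : E2) : Prop := ∀ p q : ℝ, ‖p • e + q • e'‖ ^ 2 = p ^ 2 + q ^ 2

theorem key_ineq (he : Orth e e') {m : ℕ} {φ : Fin m → StrongDual ℝ E2} (hφ : Adm φ) (p q : ℝ)
    (hp : 0 ≤ p) (hq : 0 ≤ q) :
    (∑ i, max (p * |φ i e|) (q * |φ i e'|)) ^ 2 ≤ p ^ 2 + q ^ 2 := by
  have h1 := hφ.apply_le (p • e + q • e')
  have h2 := hφ.apply_le (p • e + (-q) • e')
  have h3 : ‖p • e + (-q) • e'‖ = ‖p • e + q • e'‖ := by
    have a1 := he p q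
    have a2 := he p (-q)
    rw [neg_sq, ← a1] at a2
    exact (pow_left_inj₀ (norm_nonneg _) (norm_nonneg _) two_ne_zero).1 a2
  rw [h3] at h2
  have h4 : ∀ i, 2 * max (p * |φ i e|) (q * |φ i e'|)
      ≤ |φ i (p • e + q • e')| + |φ i (p • e + (-q) • e')| := by
    intro i
    simp only [map_add, map_smul, smul_eq_mul]
    have b1 : |p * φ i e| = p * |φ i e| := by rw [abs_mul, abs_of_nonneg hp]
    have b2 : |q * φ i e'| = q * |φ i e'| := by rw [abs_mul, abs_of_nonneg hq]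
    rw [← b1, ← b2]
    have c1 := abs_add_le (p * φ i e + q * φ i e') (p * φ i e + -q * φ i e')
    have c2 := abs_sub (p * φ i e + q * φ i e') (p * φ i e + -q * φ i e')
    have c3 : p * φ i e + q * φ i e' + (p * φ i e + -q * φ i e') = 2 * (p * φ i e) := by ring
    have c4 : p * φ i e + q * φ i e' - (p * φ i e + -q * φ i e') = 2 * (q * φ i e') := by ring
    rw [c3, abs_mul, abs_two] at c1
    rw [c4, abs_mul, abs_two] at c2
    rcases le_total (|p * φ i e|) (|q * φ i e'|) with h | h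
    · rw [max_eq_right h]; exact c2
    · rw [max_eq_left h]; exact c1
  have h5 : 2 * ∑ i, max (p * |φ i e|) (q * |φ i e'|) ≤ 2 * ‖p • e + q • e'‖ := by
    rw [Finset.mul_sum]
    refine (Finset.sum_le_sum fun i _ => h4 i).trans ?_
    rw [Finset.sum_add_distrib]
    linarith
  have h6 : ∑ i, max (p * |φ i e|) (q * |φ i e'|) ≤ ‖p • e + q • e'‖ := by linarith
  have h7 : 0 ≤ ∑ i, max (p * |φ i e|) (q * |φ i e'|) :=
    Finset.sum_nonneg fun i _ => le_max_of_le_left (by positivity)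
  rw [← he p q]
  exact pow_le_pow_left₀ h7 h6 2

/-- The main lemma: a function which is octahedral over `test e e'` is large near the direction
dual to `e`. -/
theorem large (he : Orth e e') (g : StrongDual ℝ E2 → ℝ)
    (hhom : ∀ t : ℝ, 0 ≤ t → ∀ φ, g (t • φ) = t * g φ)
    (hg : ∀ (m : ℕ) (φ : Fin m → StrongDual ℝ E2), Adm φ → ∑ i, |g (φ i)| ≤ 1)
    (hg1 : ∀ φ : StrongDual ℝ E2, |g φ| ≤ |φ e| + |φ e'|)
    (hsup : ∃ (m : ℕ) (φ : Fin m → StrongDual ℝ E2), Adm φ ∧
      199 / 100 ≤ ∑ i, |(test e e' + g) (φ i)|) :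
    ∃ ψ : StrongDual ℝ E2, |ψ e| = 1 ∧ |ψ e'| ≤ 1 / 10 ∧ 4 / 5 ≤ |g ψ| := by
  obtain ⟨m, φ, hφ, hlow⟩ := hsup
  by_contra hcon
  push Not at hcon
  have ha : ∑ i, |φ i e| ≤ 1 := by
    have h1 := hφ.apply_le e
    have h2 : ‖e‖ = 1 := by
      have := he 1 0
      simp only [one_smul, zero_smul, add_zero] at this
      have h3 : ‖e‖ ^ 2 = 1 := by rw [this]; norm_num
      have h4 := norm_nonneg e
      nlinarith
    rwa [h2] at h1
  have hgs := hg m φ hφ
  have hts : ∀ i, 0 ≤ test e e' (φ i) := fun i => by rw [test_apply]; exact le_max_right _ _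
  have htle : ∀ i, test e e' (φ i) ≤ |φ i e| := fun i => by
    rw [test_apply]
    refine max_le ?_ (abs_nonneg _)
    have := abs_nonneg (φ i e')
    linarith
  have hsum : 199 / 100 ≤ ∑ i, test e e' (φ i) + ∑ i, |g (φ i)| := by
    rw [← Finset.sum_add_distrib]
    refine hlow.trans (Finset.sum_le_sum fun i _ => ?_)
    rw [Pi.add_apply]
    refine (abs_add_le _ _).trans ?_
    rw [abs_of_nonneg (hts i)]
  have htest : 99 / 100 ≤ ∑ i, test e e' (φ i) := by linarith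
  have hgl : 99 / 100 ≤ ∑ i, |g (φ i)| := by
    have := Finset.sum_le_sum (s := (Finset.univ : Finset (Fin m))) fun i _ => htle i
    linarith
  classical
  let N : Finset (Fin m) := Finset.univ.filter fun i => 10 * |φ i e'| < |φ i e|
  have hN : ∀ i, i ∉ N → test e e' (φ i) = 0 := by
    intro i hi
    simp only [N, Finset.mem_filter, Finset.mem_univ, true_and, not_lt] at hi
    rw [test_apply, max_eq_right (by linarith)]
  have hNs : ∑ i, test e e' (φ i) = ∑ i ∈ N, test e e' (φ i) := by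
    symm
    exact Finset.sum_subset (Finset.subset_univ N) fun i _ hi => hN i hi
  have hNa : 99 / 100 ≤ ∑ i ∈ N, |φ i e| := by
    rw [hNs] at htest
    exact htest.trans (Finset.sum_le_sum fun i _ => htle i)
  have hsplit : ∀ F : Fin m → ℝ, ∑ i, F i = ∑ i ∈ N, F i + ∑ i ∈ Nᶜ, F i := fun F =>
    (Finset.sum_add_sum_compl N F).symm
  have hNc : ∑ i ∈ Nᶜ, |φ i e| ≤ 1 / 100 := by
    rw [hsplit] at ha
    linarith
  set β : ℝ := ∑ i ∈ Nᶜ, |φ i e'| with hβ
  have hβ0 : 0 ≤ β := Finset.sum_nonneg fun i _ => abs_nonneg _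
  have hβ1 : β ^ 2 ≤ 2 / 100 := by
    have h1 := key_ineq he hφ (99 / 100) β (by norm_num) hβ0
    have h2 : (99 / 100 : ℝ) ^ 2 + β ^ 2 ≤ ∑ i, max (99 / 100 * |φ i e|) (β * |φ i e'|) := by
      rw [hsplit]
      have h3 : (99 / 100 : ℝ) ^ 2 ≤ ∑ i ∈ N, max (99 / 100 * |φ i e|) (β * |φ i e'|) := by
        calc (99 / 100 : ℝ) ^ 2 = 99 / 100 * (99 / 100) := by ring
          _ ≤ 99 / 100 * ∑ i ∈ N, |φ i e| := mul_le_mul_of_nonneg_left hNa (by norm_num)
          _ = ∑ i ∈ N, 99 / 100 * |φ i e| := by rw [Finset.mul_sum]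
          _ ≤ _ := Finset.sum_le_sum fun i _ => le_max_left _ _
      have h4 : β ^ 2 ≤ ∑ i ∈ Nᶜ, max (99 / 100 * |φ i e|) (β * |φ i e'|) := by
        calc β ^ 2 = β * ∑ i ∈ Nᶜ, |φ i e'| := by rw [sq]
          _ = ∑ i ∈ Nᶜ, β * |φ i e'| := by rw [Finset.mul_sum]
          _ ≤ _ := Finset.sum_le_sum fun i _ => le_max_right _ _
      linarith
    set A := (99 / 100 : ℝ) ^ 2 + β ^ 2 with hA
    set B := ∑ i, max (99 / 100 * |φ i e|) (β * |φ i e'|) with hB
    have hA0 : 0 < A := by positivity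
    have h5 : A ^ 2 ≤ A := (pow_le_pow_left₀ hA0.le h2 2).trans h1
    have h6 : A ≤ 1 := by
      by_contra h7
      push Not at h7
      nlinarith
    nlinarith
  have hβ2 : β ≤ 15 / 100 := by
    by_contra h
    push Not at h
    nlinarith
  have hgN : ∑ i ∈ N, |g (φ i)| ≤ 4 / 5 := by
    have h1 : ∀ i ∈ N, |g (φ i)| ≤ 4 / 5 * |φ i e| := by
      intro i hi
      simp only [N, Finset.mem_filter, Finset.mem_univ, true_and] at hi
      have hpos : 0 < |φ i e| := lt_of_le_of_lt (by positivity) hi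
      have h2 := hcon (|φ i e|⁻¹ • φ i) (by
        rw [smul_apply, smul_eq_mul, abs_mul, abs_inv, abs_abs, inv_mul_cancel₀ hpos.ne']) (by
        rw [smul_apply, smul_eq_mul, abs_mul, abs_inv, abs_abs, inv_mul_le_iff₀ hpos]
        linarith)
      rw [hhom _ (inv_nonneg.2 (abs_nonneg _)), abs_mul, abs_inv, abs_abs,
        inv_mul_lt_iff₀ hpos] at h2
      linarith
    refine (Finset.sum_le_sum h1).trans ?_
    rw [← Finset.mul_sum]
    have h2 : ∑ i ∈ N, |φ i e| ≤ 1 := by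
      refine le_trans ?_ ha
      exact Finset.sum_le_sum_of_subset_of_nonneg (Finset.subset_univ N) fun i _ _ => abs_nonneg _
    linarith
  have hgNc : ∑ i ∈ Nᶜ, |g (φ i)| ≤ 1 / 100 + 15 / 100 := by
    refine (Finset.sum_le_sum fun i _ => hg1 (φ i)).trans ?_
    rw [Finset.sum_add_distrib]
    linarith
  rw [hsplit] at hgl
  linarith

/-- The coordinate vectors. -/
noncomputable def b0 : E2 := EuclideanSpace.single 0 (1 : ℝ)
noncomputable def b1 : E2 := EuclideanSpace.single 1 (1 : ℝ)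

theorem orth01 : Orth b0 b1 := by
  intro p q
  rw [EuclideanSpace.norm_sq_eq, Fin.sum_univ_two]
  simp [b0, b1]

theorem orth10 : Orth b1 b0 := by
  intro p q
  rw [EuclideanSpace.norm_sq_eq, Fin.sum_univ_two]
  simp [b0, b1]
  ring

theorem expand (x : E2) : x = x 0 • b0 + x 1 • b1 := by
  ext i
  fin_cases i <;> simp [b0, b1]

theorem apply_bound (φ : StrongDual ℝ E2) (x : E2) : |φ x| ≤ |x 0| * |φ b0| + |x 1| * |φ b1| := by
  conv_lhs => rw [expand x, map_add, map_smul, map_smul, smul_eq_mul, smul_eq_mul]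
  refine (abs_add_le _ _).trans ?_
  rw [abs_mul, abs_mul]

theorem coord_sq (x : E2) : x 0 ^ 2 + x 1 ^ 2 = ‖x‖ ^ 2 := by
  rw [EuclideanSpace.norm_sq_eq, Fin.sum_univ_two]
  simp

/-- The free Banach lattice over the Euclidean plane is not octahedral. -/
theorem not_octahedral : ¬ OctahedralFBL E2 := by
  intro h
  let Y : Submodule ℝ (StrongDual ℝ E2 → ℝ) := Submodule.span ℝ {test b0 b1, test b1 b0}
  have hYfin : FiniteDimensional ℝ Y :=
    FiniteDimensional.span_of_finite ℝ (Set.toFinite _)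
  have hYL : Y ≤ Lat E2 := by
    rw [Submodule.span_le]
    intro f hf
    rcases hf with rfl | rfl
    · exact test_mem _ _
    · exact test_mem _ _
  obtain ⟨g, hgF, hg1, hgY⟩ := h Y hYfin (fun f hf => lat_sub_fbl (hYL hf)) (1 / 300) (by norm_num)
  have hbd := fbl_bdd hgF
  have hgle : ∀ (m : ℕ) (φ : Fin m → StrongDual ℝ E2), Adm φ → ∑ i, |g (φ i)| ≤ 1 := by
    intro m φ hφ
    rw [← hg1]
    exact le_fnorm hbd hφ
  have hhom := hgF.1
  -- pointwise bound
  have hpt : ∀ φ : StrongDual ℝ E2, |g φ| ≤ |φ b0| + |φ b1| := by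
    intro φ
    have h0 : 0 ≤ |φ b0| + |φ b1| := by positivity
    rcases h0.eq_or_lt with h0 | h0
    · have hz : φ = 0 := by
        ext x
        have h1 := apply_bound φ x
        have h2 : |φ b0| = 0 := by
          have := abs_nonneg (φ b0); have := abs_nonneg (φ b1); linarith
        have h3 : |φ b1| = 0 := by
          have := abs_nonneg (φ b0); have := abs_nonneg (φ b1); linarith
        rw [h2, h3, mul_zero, mul_zero, add_zero] at h1
        simpa using abs_eq_zero.1 (le_antisymm h1 (abs_nonneg _))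
      have h1 := hhom 0 le_rfl φ
      rw [zero_smul, zero_mul, ← hz] at h1
      rw [← h0, h1, abs_zero]
    · set s := |φ b0| + |φ b1| with hs
      have hadm : Adm (fun _ : Fin 1 => s⁻¹ • φ) := by
        intro x hx
        rw [Fin.sum_univ_one, smul_apply, smul_eq_mul, abs_mul, abs_inv, abs_of_pos h0,
          inv_mul_le_one₀ h0]
        have h1 := apply_bound φ x
        have h2 := coord_sq x
        have h3 : |x 0| ≤ 1 := by
          rw [abs_le_one_iff_mul_self_le_one]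
          nlinarith [norm_nonneg x, sq_nonneg (x 1)]
        have h4 : |x 1| ≤ 1 := by
          rw [abs_le_one_iff_mul_self_le_one]
          nlinarith [norm_nonneg x, sq_nonneg (x 0)]
        have h5 := mul_le_mul_of_nonneg_right h3 (abs_nonneg (φ b0))
        have h6 := mul_le_mul_of_nonneg_right h4 (abs_nonneg (φ b1))
        linarith
      have h1 := hgle 1 _ hadm
      rw [Fin.sum_univ_one, hhom _ (inv_nonneg.2 h0.le), abs_mul, abs_inv, abs_of_pos h0,
        inv_mul_le_one₀ h0] at h1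
      exact h1
  -- octahedrality over the test functions
  have hsup : ∀ e e' : E2, test e e' ∈ Y → Orth e e' → (∃ φ : StrongDual ℝ E2,
      Adm (fun _ : Fin 1 => φ) ∧ φ e = 1 ∧ φ e' = 0) →
      ∃ (m : ℕ) (φ : Fin m → StrongDual ℝ E2), Adm φ ∧
        199 / 100 ≤ ∑ i, |(test e e' + g) (φ i)| := by
    intro e e' hmem _ ⟨φ₀, hφ₀, hφe, hφe'⟩
    have h1 := hgY _ hmem 1
    rw [abs_one, one_smul] at h1
    have h2 : 1 ≤ fnorm (test e e') := by
      have := le_fnorm (lat_bdd (hYL hmem)) hφ₀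
      rw [Fin.sum_univ_one, test_apply, hφe, hφe'] at this
      norm_num at this
      exact this
    have h3 : 199 / 100 < fnorm (test e e' + g) := by linarith
    obtain ⟨_, ⟨m, φ, hφ, rfl⟩, hlt⟩ := exists_lt_of_lt_csSup (vals_nonempty _) h3
    exact ⟨m, φ, hφ, hlt.le⟩
  let π : Fin 2 → StrongDual ℝ E2 := fun i => EuclideanSpace.proj i
  have hπ : ∀ i, Adm (fun _ : Fin 1 => π i) := by
    intro i x hx
    rw [Fin.sum_univ_one]
    change |x i| ≤ 1
    have h2 := coord_sq x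
    rw [abs_le_one_iff_mul_self_le_one]
    fin_cases i
    · simp only [Fin.zero_eta]
      nlinarith [norm_nonneg x, sq_nonneg (x 1)]
    · simp only [Fin.mk_one]
      nlinarith [norm_nonneg x, sq_nonneg (x 0)]
  obtain ⟨ψ, hψ1, hψ2, hψ3⟩ := large orth01 g hhom hgle hpt
    (hsup b0 b1 (Submodule.subset_span (by simp)) orth01 ⟨π 0, hπ 0, by simp [π, b0], by
      simp [π, b1]⟩)
  obtain ⟨χ, hχ1, hχ2, hχ3⟩ := large orth10 g hhom hgle (fun φ => by
      have := hpt φ; linarith)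
    (hsup b1 b0 (Submodule.subset_span (by simp)) orth10 ⟨π 1, hπ 1, by simp [π, b1], by
      simp [π, b0]⟩)
  have hadm : Adm (![(64 / 100 : ℝ) • ψ, (64 / 100 : ℝ) • χ] : Fin 2 → StrongDual ℝ E2) := by
    intro x hx
    rw [Fin.sum_univ_two]
    simp only [Matrix.cons_val_zero, Matrix.cons_val_one, smul_apply, smul_eq_mul, abs_mul]
    have a1 := apply_bound ψ x
    have a2 := apply_bound χ x
    have a3 := coord_sq x
    rw [hψ1] at a1
    rw [hχ1] at a2
    have h0 := abs_nonneg (x 0)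
    have h1 := abs_nonneg (x 1)
    have a4 : |x 0| + |x 1| ≤ 142 / 100 := by
      have b1 : |x 0| ^ 2 = x 0 ^ 2 := sq_abs _
      have b2 : |x 1| ^ 2 = x 1 ^ 2 := sq_abs _
      have b3 : ‖x‖ ^ 2 ≤ 1 := by nlinarith [norm_nonneg x]
      nlinarith [sq_nonneg (|x 0| - |x 1|)]
    have a5 : |x 1| * |ψ b1| ≤ |x 1| * (1 / 10) := mul_le_mul_of_nonneg_left hψ2 h1
    have a6 : |x 0| * |χ b0| ≤ |x 0| * (1 / 10) := mul_le_mul_of_nonneg_left hχ2 h0
    rw [abs_of_pos (by norm_num : (0 : ℝ) < 64 / 100)]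
    nlinarith
  have hfin := hgle 2 _ hadm
  rw [Fin.sum_univ_two] at hfin
  simp only [Matrix.cons_val_zero, Matrix.cons_val_one] at hfin
  rw [hhom _ (by norm_num), hhom _ (by norm_num), abs_mul, abs_mul,
    abs_of_pos (by norm_num : (0 : ℝ) < 64 / 100)] at hfin
  linarith

end plane

/-- There is a finite-dimensional Banach space of dimension at least two, namely the Euclidean
plane, whose free Banach lattice does not have an octahedral norm. -/
theorem result : FiniteDimensional ℝ (EuclideanSpace ℝ (Fin 2)) ∧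
    Module.finrank ℝ (EuclideanSpace ℝ (Fin 2)) = 2 ∧
    ¬ OctahedralFBL (EuclideanSpace ℝ (Fin 2)) :=
  ⟨inferInstance, by simp, not_octahedral⟩

end Pool.Agent.Results.MP_8a6196_an.EuclideanPlane
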